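import Pool.Agent.H42.AA.Half

/-! # [H42 AA HALF2] the classes of the middle range in one chart -/

namespace Pool.Agent.H42.AA

open Finset Polynomial Pool.Agent.H8.AA

/-- the dyadic scale of x -/
def sc (x : ℤ) : ℕ := Nat.log 2 x.natAbs

theorem sc_le {x : ℤ} (hx : x ≠ 0) : (2 : ℝ) ^ sc x ≤ |(x : ℝ)| := by
  have h1 : 2 ^ sc x ≤ x.natAbs := Nat.pow_log_le_self 2 (Int.natAbs_ne_zero.2 hx)
  have h2 : ((2 ^ sc x : ℕ) : ℝ) ≤ (x.natAbs : ℝ) := by exact_mod_cast h1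
  rw [Nat.cast_natAbs] at h2
  push_cast at h2
  exact h2

theorem lt_sc (x : ℤ) : |(x : ℝ)| < 2 * (2 : ℝ) ^ sc x := by
  have h1 : x.natAbs < 2 ^ (sc x + 1) := Nat.lt_pow_succ_log_self one_lt_two _
  have h2 : (x.natAbs : ℝ) < ((2 ^ (sc x + 1) : ℕ) : ℝ) := by exact_mod_cast h1
  rw [Nat.cast_natAbs] at h2
  push_cast at h2
  rw [pow_succ] at h2
  linarith

/-- the window of x -/
noncomputable def wi (κ : ℝ) (x : ℤ) : ℕ := ⌊(|(x : ℝ)| - 2 ^ sc x) * κ / 2 ^ sc x⌋₊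

/-- the class of a point -/
noncomputable def kl (n : ℕ) (e : ℕ → ℕ → ℤ) (κ : ℝ) (P : ℤ × ℤ) : Bool × ℕ × ℕ × ℕ :=
  (decide (0 < P.1), sc P.1, wi κ P.1, cb n e ((P.2 : ℝ) / P.1))

theorem sign_of_kl {x x' : ℤ} (hx : x ≠ 0) (hx' : x' ≠ 0)
    (h : decide (0 < x) = decide (0 < x')) : 0 < x * x' := by
  have h1 : 0 < x ↔ 0 < x' := by simpa using h
  rcases lt_or_gt_of_ne hx with h2 | h2
  · have h3 : x' < 0 := by
      rcases lt_or_gt_of_ne hx' with h3 | h3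
      · exact h3
      · exact absurd (h1.2 h3) (not_lt.2 h2.le)
    exact mul_pos_of_neg_of_neg h2 h3
  · exact mul_pos h2 (h1.1 h2)

theorem abs_sub_of_pos {x x' : ℝ} (h : 0 < x * x') : |x - x'| = |(|x| - |x'|)| := by
  rcases pos_and_pos_or_neg_and_neg_of_mul_pos h with ⟨h1, h2⟩ | ⟨h1, h2⟩
  · rw [abs_of_pos h1, abs_of_pos h2]
  · rw [abs_of_neg h1, abs_of_neg h2, show -x - -x' = -(x - x') by ring, abs_neg]

theorem wi_close {κ : ℝ} (hκ : 0 < κ) {x x' : ℤ} (hx : x ≠ 0) (hx' : x' ≠ 0) (hs : sc x = sc x')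
    (hw : wi κ x = wi κ x') : |(|(x : ℝ)| - |(x' : ℝ)|)| ≤ 2 ^ sc x / κ := by
  set X : ℝ := 2 ^ sc x with hX
  have hX0 : 0 < X := by positivity
  have ha : 0 ≤ (|(x : ℝ)| - X) * κ / X := by
    have := sc_le hx
    have h1 : 0 ≤ |(x : ℝ)| - X := by rw [hX]; linarith
    positivity
  have ha' : 0 ≤ (|(x' : ℝ)| - X) * κ / X := by
    have := sc_le hx'
    have h1 : 0 ≤ |(x' : ℝ)| - X := by rw [hX, hs]; linarith
    positivity
  have h1 := Nat.floor_le ha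
  have h2 := Nat.lt_floor_add_one ((|(x : ℝ)| - X) * κ / X)
  have h3 := Nat.floor_le ha'
  have h4 := Nat.lt_floor_add_one ((|(x' : ℝ)| - X) * κ / X)
  have hw' : ⌊(|(x : ℝ)| - X) * κ / X⌋₊ = ⌊(|(x' : ℝ)| - X) * κ / X⌋₊ := by
    have h5 := hw
    unfold wi at h5
    rw [← hs, ← hX] at h5
    exact h5
  rw [← hw'] at h3 h4
  have h6 : (|(x : ℝ)| - X) * κ / X - (|(x' : ℝ)| - X) * κ / X = (|(x : ℝ)| - |(x' : ℝ)|) * κ / X := by
    ring
  have h7 : |(|(x : ℝ)| - |(x' : ℝ)|) * κ / X| ≤ 1 := by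
    rw [← h6, abs_le]
    constructor <;> linarith
  rw [abs_div, abs_mul, abs_of_pos hκ, abs_of_pos hX0, div_le_one hX0] at h7
  rw [le_div_iff₀ hκ]
  exact h7

/-- points of one class are collinear -/
theorem fib_card (n : ℕ) (hn : 3 ≤ n) : ∃ K : ℝ, 1 ≤ K ∧ ∀ (e : ℕ → ℕ → ℤ) (H : ℕ) (A : ℝ), 1 ≤ H →
    1 ≤ A → Bd n H e → Ir n e → Gd n (H / A) e → ∀ S : Finset (ℤ × ℤ),
    (∀ P ∈ S, |ev n e P.1 P.2| ≤ (H : ℤ) ∧ |P.2| ≤ |P.1| ∧ (2 * K + (n + 1) ^ 2) * A ^ 2 ≤ (|P.1| : ℤ)) →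
    ∀ c, ((S.filter (fun P => kl n e (K * A) P = c)).card : ℝ) ≤ n * (2 * (H : ℝ) ^ (1 / (n : ℝ)) + 1) := by
  obtain ⟨K, hK, hstr⟩ := str n hn
  refine ⟨K, hK, ?_⟩
  intro e H A hH hA hb hI hG S hS c
  have hH' : (1 : ℝ) ≤ (H : ℝ) := by exact_mod_cast hH
  have hA0 : 0 < A := by linarith
  have hκ : 0 < K * A := by positivity
  have hA2 : A ≤ A ^ 2 := by nlinarith
  -- facts on single points
  have hpt : ∀ P ∈ S, P.1 ≠ 0 ∧ |ev n e P.1 P.2| ≤ (H : ℤ) ∧ |P.2| ≤ |P.1| ∧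
      (2 * K + (n + 1) ^ 2) * A ^ 2 ≤ |(P.1 : ℝ)| ∧
      aeval ((P.2 : ℝ) / P.1) (derivative (fm e n)) ≠ 0 := by
    intro P hP
    obtain ⟨h1, h2, h3⟩ := hS P hP
    have h3' : (2 * K + ((n : ℝ) + 1) ^ 2) * A ^ 2 ≤ |(P.1 : ℝ)| := by
      rw [Int.cast_abs] at h3
      exact h3
    have hpos : 0 < (2 * K + ((n : ℝ) + 1) ^ 2) * A ^ 2 := by positivity
    have hx0 : 0 < |(P.1 : ℝ)| := lt_of_lt_of_le hpos h3'
    have hx : P.1 ≠ 0 := by
      intro h4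
      rw [h4] at hx0
      simp at hx0
    refine ⟨hx, h1, h2, h3', ?_⟩
    have h4 := small_top (by omega : 1 ≤ n) hb hx h2 h1
    have h5 : ((n : ℝ) + 1) ^ 2 * H / |(P.1 : ℝ)| ≤ H / A := by
      rw [div_le_div_iff₀ hx0 hA0]
      have h6 : ((n : ℝ) + 1) ^ 2 * A ≤ |(P.1 : ℝ)| := by
        refine le_trans ?_ h3'
        have h7 : ((n : ℝ) + 1) ^ 2 * A ≤ ((n : ℝ) + 1) ^ 2 * A ^ 2 :=
          mul_le_mul_of_nonneg_left hA2 (by positivity)
        have h8 : ((n : ℝ) + 1) ^ 2 * A ^ 2 ≤ (2 * K + ((n : ℝ) + 1) ^ 2) * A ^ 2 :=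
          mul_le_mul_of_nonneg_right (by linarith) (by positivity)
        linarith
      calc ((n : ℝ) + 1) ^ 2 * H * A = (((n : ℝ) + 1) ^ 2 * A) * H := by ring
        _ ≤ |(P.1 : ℝ)| * H := mul_le_mul_of_nonneg_right h6 (by positivity)
        _ = H * |(P.1 : ℝ)| := by ring
    have ht : |((P.2 : ℝ) / P.1)| ≤ 1 := by
      rw [abs_div, div_le_one hx0]
      exact_mod_cast h2
    rcases hG _ ht with h6 | h6
    · exact absurd h6 (not_lt.2 (h4.trans h5))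
    · intro h7
      rw [h7, abs_zero] at h6
      have : (0 : ℝ) ≤ H / A := by positivity
      linarith
  refine cls n (by omega) e hI H hH' _ ?_ ?_
  · -- collinear
    intro P hP Q hQ R hR
    rw [Finset.mem_filter] at hP hQ hR
    have hPQR : ∀ i : Fin 3, (![P, Q, R] i) ∈ S ∧ kl n e (K * A) (![P, Q, R] i) = c := by
      intro i
      fin_cases i
      · exact hP
      · exact hQ
      · exact hR
    have hk : ∀ i j : Fin 3, kl n e (K * A) (![P, Q, R] i) = kl n e (K * A) (![P, Q, R] j) :=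
      fun i j => (hPQR i).2.trans (hPQR j).2.symm
    have hsc : ∀ i : Fin 3, sc (![P, Q, R] i).1 = sc P.1 := fun i => by
      have h1 := congrArg (fun z : Bool × ℕ × ℕ × ℕ => z.2.1) (hk i 0)
      exact h1
    have key := hstr e H A ((2 : ℝ) ^ sc P.1) hH hA hb hG ?_ (fun i => (![P, Q, R] i).1)
      (fun i => (![P, Q, R] i).2) ?_ ?_ ?_ ?_
    · exact key
    · -- K A^2 <= X
      have h1 := (hpt P hP.1).2.2.2.1
      have h2 := lt_sc P.1
      have h3 : (2 * K) * A ^ 2 ≤ (2 * K + ((n : ℝ) + 1) ^ 2) * A ^ 2 :=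
        mul_le_mul_of_nonneg_right (by
          have : (0 : ℝ) ≤ ((n : ℝ) + 1) ^ 2 := by positivity
          linarith) (by positivity)
      linarith
    · intro i
      obtain ⟨h1, h2, h3, h4, h5⟩ := hpt _ (hPQR i).1
      refine ⟨?_, ?_, h3, h2⟩
      · have := sc_le h1
        rw [hsc i] at this
        exact this
      · have := lt_sc (![P, Q, R] i).1
        rw [hsc i] at this
        exact this.le
    · intro i j
      exact sign_of_kl (hpt _ (hPQR i).1).1 (hpt _ (hPQR j).1).1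
        (congrArg (fun z : Bool × ℕ × ℕ × ℕ => z.1) (hk i j))
    · intro i j
      have h0 : 0 < (![P, Q, R] i).1 * (![P, Q, R] j).1 :=
        sign_of_kl (hpt _ (hPQR i).1).1 (hpt _ (hPQR j).1).1
          (congrArg (fun z : Bool × ℕ × ℕ × ℕ => z.1) (hk i j))
      have h0' : (0 : ℝ) < ((![P, Q, R] i).1 : ℝ) * ((![P, Q, R] j).1 : ℝ) := by exact_mod_cast h0
      show |((![P, Q, R] i).1 : ℝ) - ((![P, Q, R] j).1 : ℝ)| ≤ (2 : ℝ) ^ sc P.1 / (K * A)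
      rw [abs_sub_of_pos h0']
      have h1 := wi_close hκ (hpt _ (hPQR i).1).1 (hpt _ (hPQR j).1).1
        ((hsc i).trans (hsc j).symm) (congrArg (fun z : Bool × ℕ × ℕ × ℕ => z.2.2.1) (hk i j))
      rw [hsc i] at h1
      exact h1
    · intro i j s hs
      have hc : cb n e (((![P, Q, R] i).2 : ℝ) / (![P, Q, R] i).1) =
          cb n e (((![P, Q, R] j).2 : ℝ) / (![P, Q, R] j).1) :=
        congrArg (fun z : Bool × ℕ × ℕ × ℕ => z.2.2.2) (hk i j)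
      rw [Set.mem_uIcc] at hs
      rcases hs with ⟨h1, h2⟩ | ⟨h1, h2⟩
      · rcases h2.lt_or_eq with h3 | h3
        · exact no_crit (by omega) hI.1 h1 h3 hc
        · rw [h3]
          exact (hpt _ (hPQR j).1).2.2.2.2
      · rcases h2.lt_or_eq with h3 | h3
        · exact no_crit (by omega) hI.1 h1 h3 hc.symm
        · rw [h3]
          exact (hpt _ (hPQR i).1).2.2.2.2
  · intro P hP
    rw [Finset.mem_filter] at hP
    have h1 := (hpt P hP.1).2.1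
    exact_mod_cast h1

end Pool.Agent.H42.AA
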