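import Pool.Agent.H42.AA.Half2

/-! # [H42 AA HALF3] counting the classes; the middle range in one chart -/

namespace Pool.Agent.H42.AA

open Finset Polynomial Pool.Agent.H8.AA

theorem half0 (n : ℕ) (hn : 3 ≤ n) (E : ℕ) : ∃ C K : ℝ, 0 ≤ C ∧ 1 ≤ K ∧ ∀ (e : ℕ → ℕ → ℤ) (H : ℕ) (A : ℝ), 1 ≤ H →
    1 ≤ A → Bd n H e → Ir n e → Gd n (H / A) e → ∀ S : Finset (ℤ × ℤ),
    (∀ P ∈ S, |ev n e P.1 P.2| ≤ (H : ℤ) ∧ |P.2| ≤ |P.1| ∧ K * A ^ 2 ≤ (|P.1| : ℤ) ∧ |P.1| ≤ (H : ℤ) ^ E) →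
    (S.card : ℝ) ≤ C * A * (H : ℝ) ^ (1 / (n : ℝ)) * (1 + Real.log H) := by
  obtain ⟨K, hK, hf⟩ := fib_card n hn
  refine ⟨12 * (2 * E + 1) * K * n ^ 2, 2 * K + (n + 1) ^ 2, by positivity, by nlinarith, ?_⟩
  intro e H A hH hA hb hI hG S hS
  have hH' : (1 : ℝ) ≤ (H : ℝ) := by exact_mod_cast hH
  have hA0 : 0 < A := by linarith
  have hlog : 0 ≤ Real.log H := Real.log_nonneg hH'
  have hfib := hf e H A hH hA hb hI hG S fun P hP => ⟨(hS P hP).1, (hS P hP).2.1, (hS P hP).2.2.1⟩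
  set M : ℝ := (n : ℝ) * (2 * (H : ℝ) ^ (1 / (n : ℝ)) + 1) with hM
  -- the set of classes
  set T : Finset (Bool × ℕ × ℕ × ℕ) :=
    (Finset.univ : Finset Bool) ×ˢ (range (⌊2 * (E : ℝ) * Real.log H⌋₊ + 1) ×ˢ
      (range (⌊K * A⌋₊ + 1) ×ˢ range n)) with hT
  have hmaps : ∀ P ∈ S, kl n e (K * A) P ∈ T := by
    intro P hP
    obtain ⟨h1, h2, h3, h4⟩ := hS P hP
    have h3' : (2 * K + ((n : ℝ) + 1) ^ 2) * A ^ 2 ≤ |(P.1 : ℝ)| := by
      rw [Int.cast_abs] at h3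
      exact h3
    have hpos : 0 < (2 * K + ((n : ℝ) + 1) ^ 2) * A ^ 2 := by positivity
    have hx0 : 0 < |(P.1 : ℝ)| := lt_of_lt_of_le hpos h3'
    have hx : P.1 ≠ 0 := by
      intro h5
      rw [h5] at hx0
      simp at hx0
    have h5 := sc_le hx
    have h6 := lt_sc P.1
    rw [hT]
    simp only [Finset.mem_product, Finset.mem_univ, true_and, kl, Finset.mem_range]
    refine ⟨?_, ?_, cb_lt (by omega) e _⟩
    · -- the scale
      rw [Nat.lt_succ_iff]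
      apply Nat.le_floor
      have h7 : |(P.1 : ℝ)| ≤ (H : ℝ) ^ E := by exact_mod_cast h4
      have h8 : (2 : ℝ) ^ sc P.1 ≤ (H : ℝ) ^ E := h5.trans h7
      have h9 : (sc P.1 : ℝ) * Real.log 2 ≤ E * Real.log H := by
        have h10 := Real.log_le_log (by positivity) h8
        rw [Real.log_pow, Real.log_pow] at h10
        exact h10
      have h11 : (1 : ℝ) / 2 ≤ Real.log 2 := by
        have := Real.log_two_gt_d9
        linarith
      have h12 : (0 : ℝ) ≤ (sc P.1 : ℝ) := Nat.cast_nonneg _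
      nlinarith
    · -- the window
      rw [Nat.lt_succ_iff]
      unfold wi
      apply Nat.floor_le_floor
      have hX0 : (0 : ℝ) < 2 ^ sc P.1 := by positivity
      rw [div_le_iff₀ hX0]
      have h7 : |(P.1 : ℝ)| - 2 ^ sc P.1 ≤ 2 ^ sc P.1 := by linarith
      calc (|(P.1 : ℝ)| - 2 ^ sc P.1) * (K * A) ≤ 2 ^ sc P.1 * (K * A) :=
            mul_le_mul_of_nonneg_right h7 (by positivity)
        _ = K * A * 2 ^ sc P.1 := by ring
  have hcard : (S.card : ℝ) ≤ T.card * M := by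
    rw [Finset.card_eq_sum_card_fiberwise hmaps]
    push_cast
    calc ∑ c ∈ T, ((S.filter (fun P => kl n e (K * A) P = c)).card : ℝ) ≤ ∑ c ∈ T, M :=
          Finset.sum_le_sum fun c _ => hfib c
      _ = T.card * M := by rw [Finset.sum_const, nsmul_eq_mul]
  have hTc : (T.card : ℝ) = 2 * ((⌊2 * (E : ℝ) * Real.log H⌋₊ + 1 : ℕ) * ((⌊K * A⌋₊ + 1 : ℕ) * n)) := by
    rw [hT, Finset.card_product, Finset.card_product, Finset.card_product, Finset.card_range,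
      Finset.card_range, Finset.card_range, Finset.card_univ, Fintype.card_bool]
    push_cast
    ring
  have hEnn : (0 : ℝ) ≤ (E : ℝ) := Nat.cast_nonneg _
  have hb1 : ((⌊2 * (E : ℝ) * Real.log H⌋₊ + 1 : ℕ) : ℝ) ≤ (2 * E + 1) * (1 + Real.log H) := by
    have h1 := Nat.floor_le (show (0 : ℝ) ≤ 2 * (E : ℝ) * Real.log H by positivity)
    push_cast
    nlinarith
  have hb2 : ((⌊K * A⌋₊ + 1 : ℕ) : ℝ) ≤ 2 * K * A := by
    have h1 := Nat.floor_le (show (0 : ℝ) ≤ K * A by positivity)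
    push_cast
    nlinarith
  have hHn : (1 : ℝ) ≤ (H : ℝ) ^ (1 / (n : ℝ)) := Real.one_le_rpow hH' (by positivity)
  have hb3 : M ≤ 3 * n * (H : ℝ) ^ (1 / (n : ℝ)) := by
    rw [hM]
    have hn0 : (0 : ℝ) ≤ n := Nat.cast_nonneg _
    nlinarith
  have hM0 : 0 ≤ M := by
    rw [hM]
    positivity
  have hn0 : (0 : ℝ) ≤ n := Nat.cast_nonneg _
  calc (S.card : ℝ) ≤ T.card * M := hcard
    _ = (2 * ((⌊2 * (E : ℝ) * Real.log H⌋₊ + 1 : ℕ) * ((⌊K * A⌋₊ + 1 : ℕ) * n))) * M := by rw [hTc]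
    _ ≤ (2 * (((2 * E + 1) * (1 + Real.log H)) * ((2 * K * A) * n))) *
          (3 * n * (H : ℝ) ^ (1 / (n : ℝ))) := by
        apply mul_le_mul _ hb3 hM0 (by positivity)
        apply mul_le_mul_of_nonneg_left _ (by norm_num)
        apply mul_le_mul hb1 _ (by positivity) (by positivity)
        exact mul_le_mul_of_nonneg_right hb2 hn0
    _ = 12 * (2 * E + 1) * K * n ^ 2 * A * (H : ℝ) ^ (1 / (n : ℝ)) * (1 + Real.log H) := by ring

/-- both charts, from the statement for one chart -/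
theorem med0 (irsw : ∀ (n : ℕ), 2 ≤ n → ∀ e : ℕ → ℕ → ℤ, Ir n e → Ir n (sw e))
    (n : ℕ) (hn : 3 ≤ n) (E : ℕ) : ∃ C K : ℝ, 0 ≤ C ∧ 1 ≤ K ∧ ∀ (e : ℕ → ℕ → ℤ) (H : ℕ) (A : ℝ), 1 ≤ H →
    1 ≤ A → Bd n H e → Ir n e → Gd n (H / A) e → Gd n (H / A) (sw e) → ∀ S : Finset (ℤ × ℤ),
    (∀ P ∈ S, |ev n e P.1 P.2| ≤ (H : ℤ) ∧ K * A ^ 2 ≤ (max |P.1| |P.2| : ℤ) ∧ max |P.1| |P.2| ≤ (H : ℤ) ^ E) →
    (S.card : ℝ) ≤ C * A * (H : ℝ) ^ (1 / (n : ℝ)) * (1 + Real.log H) := by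
  obtain ⟨C, K, hC, hK, hh⟩ := half0 n hn E
  refine ⟨2 * C, K, by positivity, hK, ?_⟩
  intro e H A hH hA hb hI hG hG' S hS
  have h1 := hh e H A hH hA hb hI hG (S.filter fun P => |P.2| ≤ |P.1|) (by
    intro P hP
    rw [Finset.mem_filter] at hP
    obtain ⟨h2, h3, h4⟩ := hS P hP.1
    rw [max_eq_left hP.2] at h3 h4
    exact ⟨h2, hP.2, h3, h4⟩)
  have hbs : Bd n H (sw e) := fun a b hab => hb b a (by omega)
  have h2 := hh (sw e) H A hH hA hbs (irsw n (by omega) e hI) hG'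
    ((S.filter fun P => ¬ |P.2| ≤ |P.1|).image Prod.swap) (by
    intro Q hQ
    rw [Finset.mem_image] at hQ
    obtain ⟨P, hP, rfl⟩ := hQ
    rw [Finset.mem_filter] at hP
    obtain ⟨h2, h3, h4⟩ := hS P hP.1
    have h5 : |P.1| ≤ |P.2| := (not_le.1 hP.2).le
    rw [max_eq_right h5] at h3 h4
    refine ⟨?_, h5, h3, h4⟩
    show |ev n (sw e) P.2 P.1| ≤ (H : ℤ)
    rw [ev_sw]
    exact h2)
  rw [Finset.card_image_of_injective _ Prod.swap_injective] at h2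
  have h3 : S.card = (S.filter fun P => |P.2| ≤ |P.1|).card +
      (S.filter fun P => ¬ |P.2| ≤ |P.1|).card :=
    (Finset.card_filter_add_card_filter_not _).symm
  rw [h3]
  push_cast
  linarith

end Pool.Agent.H42.AA
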