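import Pool.Agent.H8.AA.Str
import Pool.Agent.H8.AA.Cls

/-! # [H42 AA HALF] the middle range of THEOREM AA in one chart -/

namespace Pool.Agent.H42.AA

open Finset Polynomial Pool.Agent.H8.AA

theorem fm_le {n H : ℕ} {e : ℕ → ℕ → ℤ} (hb : Bd n H e) {k : ℕ} (hk : k ≤ n) {t : ℝ} (ht : |t| ≤ 1) :
    |aeval t (fm e k)| ≤ ((k : ℝ) + 1) * H := by
  rw [fm_aeval]
  calc |∑ j ∈ range (k + 1), (e (k - j) j : ℝ) * t ^ j|
      ≤ ∑ j ∈ range (k + 1), |(e (k - j) j : ℝ) * t ^ j| := Finset.abs_sum_le_sum_abs _ _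
    _ ≤ ∑ j ∈ range (k + 1), (H : ℝ) := by
        refine Finset.sum_le_sum fun j hj => ?_
        have hj' : j ≤ k := by
          have := Finset.mem_range.1 hj
          omega
        have h1 : |e (k - j) j| ≤ (H : ℤ) := hb _ _ (by omega)
        have h2 : |(e (k - j) j : ℝ)| ≤ (H : ℝ) := by exact_mod_cast h1
        have h3 : |t ^ j| ≤ 1 := by
          rw [abs_pow]
          exact pow_le_one₀ (abs_nonneg _) ht
        rw [abs_mul]
        calc |(e (k - j) j : ℝ)| * |t ^ j| ≤ (H : ℝ) * 1 :=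
              mul_le_mul h2 h3 (abs_nonneg _) (Nat.cast_nonneg _)
          _ = H := mul_one _
    _ = ((k : ℝ) + 1) * H := by
        rw [Finset.sum_const, Finset.card_range, nsmul_eq_mul]
        push_cast
        ring

/-- the top form is small at the slope of a point with small value -/
theorem small_top {n H : ℕ} (hn : 1 ≤ n) {e : ℕ → ℕ → ℤ} (hb : Bd n H e) {x y : ℤ} (hx : x ≠ 0)
    (hxy : |y| ≤ |x|) (hev : |ev n e x y| ≤ (H : ℤ)) :
    |aeval ((y : ℝ) / x) (fm e n)| ≤ ((n : ℝ) + 1) ^ 2 * H / |(x : ℝ)| := by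
  have hx' : (x : ℝ) ≠ 0 := by exact_mod_cast hx
  have hx1 : 1 ≤ |(x : ℝ)| := by
    have : 1 ≤ |x| := Int.one_le_abs hx
    exact_mod_cast this
  have hx0 : 0 < |(x : ℝ)| := by linarith
  have ht : |(y : ℝ) / x| ≤ 1 := by
    rw [abs_div, div_le_one hx0]
    exact_mod_cast hxy
  have h1 := ev_eq n e x y hx
  rw [Finset.sum_range_succ] at h1
  simp only [Nat.sub_self, pow_zero, one_mul] at h1
  set t : ℝ := (y : ℝ) / x with htdef
  set R : ℝ := ∑ k ∈ range n, (1 / (x : ℝ)) ^ (n - k) * aeval t (fm e k) with hR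
  have hxn : (x : ℝ) ^ n ≠ 0 := pow_ne_zero _ hx'
  have h2 : aeval t (fm e n) = (ev n e x y : ℝ) / (x : ℝ) ^ n - R := by
    rw [h1]
    field_simp
    ring
  have h3 : |(ev n e x y : ℝ) / (x : ℝ) ^ n| ≤ H / |(x : ℝ)| := by
    rw [abs_div, abs_pow]
    have h4 : |(ev n e x y : ℝ)| ≤ (H : ℝ) := by exact_mod_cast hev
    have h5 : |(x : ℝ)| ≤ |(x : ℝ)| ^ n := by
      calc |(x : ℝ)| = |(x : ℝ)| ^ 1 := (pow_one _).symm
        _ ≤ |(x : ℝ)| ^ n := pow_le_pow_right₀ hx1 hn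
    exact div_le_div₀ (Nat.cast_nonneg _) h4 hx0 h5
  have h4 : |R| ≤ (n : ℝ) ^ 2 * H / |(x : ℝ)| := by
    calc |R| ≤ ∑ k ∈ range n, |(1 / (x : ℝ)) ^ (n - k) * aeval t (fm e k)| :=
          Finset.abs_sum_le_sum_abs _ _
      _ ≤ ∑ k ∈ range n, (1 / |(x : ℝ)|) * ((n : ℝ) * H) := by
          refine Finset.sum_le_sum fun k hk => ?_
          have hk' := Finset.mem_range.1 hk
          rw [abs_mul]
          have h5 : |aeval t (fm e k)| ≤ (n : ℝ) * H := by
            refine (fm_le hb (by omega) ht).trans ?_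
            have h6 : (k : ℝ) + 1 ≤ n := by exact_mod_cast hk'
            exact mul_le_mul_of_nonneg_right h6 (Nat.cast_nonneg _)
          have h7 : |(1 / (x : ℝ)) ^ (n - k)| ≤ 1 / |(x : ℝ)| := by
            rw [abs_pow, abs_div, abs_one]
            have h8 : 1 / |(x : ℝ)| ≤ 1 := by
              rw [div_le_one hx0]; exact hx1
            calc (1 / |(x : ℝ)|) ^ (n - k) ≤ (1 / |(x : ℝ)|) ^ 1 :=
                  pow_le_pow_of_le_one (by positivity) h8 (by omega)
              _ = 1 / |(x : ℝ)| := pow_one _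
          exact mul_le_mul h7 h5 (abs_nonneg _) (by positivity)
      _ = (n : ℝ) ^ 2 * H / |(x : ℝ)| := by
          rw [Finset.sum_const, Finset.card_range, nsmul_eq_mul]
          ring
  rw [h2]
  calc |(ev n e x y : ℝ) / (x : ℝ) ^ n - R|
      ≤ |(ev n e x y : ℝ) / (x : ℝ) ^ n| + |R| := abs_sub _ _
    _ ≤ H / |(x : ℝ)| + (n : ℝ) ^ 2 * H / |(x : ℝ)| := add_le_add h3 h4
    _ = ((n : ℝ) ^ 2 + 1) * H / |(x : ℝ)| := by ring
    _ ≤ ((n : ℝ) + 1) ^ 2 * H / |(x : ℝ)| := by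
        apply div_le_div_of_nonneg_right _ hx0.le
        apply mul_le_mul_of_nonneg_right _ (Nat.cast_nonneg _)
        have : (0 : ℝ) ≤ n := Nat.cast_nonneg _
        nlinarith

/-- the derivative of the top form is not the zero polynomial -/
theorem der_ne {n : ℕ} (hn : 1 ≤ n) {e : ℕ → ℕ → ℤ} (h : e 0 n ≠ 0) :
    (derivative (fm e n)).map (Int.castRingHom ℝ) ≠ 0 := by
  intro h0
  have h1 := congrArg (fun p => p.coeff (n - 1)) h0
  simp only [coeff_map, coeff_zero, coeff_derivative] at h1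
  have h2 : n - 1 + 1 = n := by omega
  rw [h2, fm_coeff, if_pos le_rfl, Nat.sub_self] at h1
  have h3 : ((e 0 n * ((n - 1 : ℕ) + 1 : ℤ) : ℤ) : ℝ) = 0 := by
    simpa using h1
  have h4 : e 0 n * ((n - 1 : ℕ) + 1 : ℤ) = 0 := by exact_mod_cast h3
  rcases mul_eq_zero.1 h4 with h5 | h5
  · exact h h5
  · have : (0 : ℤ) ≤ (n - 1 : ℕ) := Int.natCast_nonneg _
    omega

/-- number of critical points below t -/
noncomputable def cb (n : ℕ) (e : ℕ → ℕ → ℤ) (t : ℝ) : ℕ :=
  (((derivative (fm e n)).map (Int.castRingHom ℝ)).roots.toFinset.filter (· < t)).card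

theorem cb_lt {n : ℕ} (hn : 1 ≤ n) (e : ℕ → ℕ → ℤ) (t : ℝ) : cb n e t < n := by
  unfold cb
  have h1 : (((derivative (fm e n)).map (Int.castRingHom ℝ)).roots.toFinset.filter (· < t)).card ≤
      ((derivative (fm e n)).map (Int.castRingHom ℝ)).natDegree :=
    (Finset.card_filter_le _ _).trans ((Multiset.toFinset_card_le _).trans (card_roots' _))
  have h2 : ((derivative (fm e n)).map (Int.castRingHom ℝ)).natDegree ≤ n - 1 :=
    natDegree_map_le.trans ((natDegree_derivative_le _).trans (Nat.sub_le_sub_right (fm_deg e n) 1))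
  omega

theorem no_crit {n : ℕ} (hn : 1 ≤ n) {e : ℕ → ℕ → ℤ} (h : e 0 n ≠ 0) {t t' s : ℝ}
    (hs : t ≤ s) (hs' : s < t') (hc : cb n e t = cb n e t') :
    aeval s (derivative (fm e n)) ≠ 0 := by
  intro h0
  have hroot : s ∈ ((derivative (fm e n)).map (Int.castRingHom ℝ)).roots.toFinset := by
    rw [Multiset.mem_toFinset, mem_roots (der_ne hn h), IsRoot.def, eval_map]
    rw [aeval_def] at h0
    exact h0
  have hsub : ((derivative (fm e n)).map (Int.castRingHom ℝ)).roots.toFinset.filter (· < t) ⊂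
      ((derivative (fm e n)).map (Int.castRingHom ℝ)).roots.toFinset.filter (· < t') := by
    rw [Finset.ssubset_iff_of_subset]
    · exact ⟨s, Finset.mem_filter.2 ⟨hroot, hs'⟩, fun h1 =>
        absurd (Finset.mem_filter.1 h1).2 (not_lt.2 hs)⟩
    · intro r hr
      rw [Finset.mem_filter] at hr ⊢
      exact ⟨hr.1, by linarith [hr.2]⟩
  have := Finset.card_lt_card hsub
  unfold cb at hc
  omega

end Pool.Agent.H42.AA
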